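import Mathlib
import Pool.Agent.TH550.BP.Known
import Pool.Agent.TH550.BP.Num

set_option autoImplicit false

/-!
# Base points of linear systems on the blow-up of the plane at general points

Let `X` be the blow-up of the complex projective plane at `n` general points `P i`, let `w` be a
vector of multiplicities, `N = ∑ w i (w i + 1) / 2` and `D = d H - ∑ w i E i`. In all the degrees
`d` in which the dimension of `|D|` is known to be the expected one (`Known` below)

* `|D|` is empty or has only one member if `(d + 2) (d + 1) / 2 ≤ N + 1`,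
* the next system `|D + H|` has no base point on `X` if `N ≤ (d + 2) (d + 1) / 2`.

Therefore `|D|` has at most one member or no base point on `X`

* in all degrees `d` but one, if `n ≥ 37` and all `w i` are equal, or if `n` is large (or `4 ∣ n`,
  `n ≥ 144`) and all `w i` are in `{m, m + 1}`,
* in all degrees `d` with `d < √n m` or `√n (m + 1) < d + 2`, if `n ≥ 10` and `w i = m` for all `i`.

For such a `D` and every `(-1)`-curve `E` on `X` the base points of the restriction of `|D|` to `E`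
lie on fixed curves of `|D|`.
-/

namespace Pool.Agent.Results.MP_5bb273_ag.BasePointFree

open MvPolynomial

/-- The space `H^0 (O_X (d H - ∑ w i E i))`: forms of degree `d` vanishing to order at least `w i`
at the points `(P i 0 : P i 1 : 1)`. -/
noncomputable def forms {n : ℕ} (P : Fin n → Fin 2 → ℂ) (d : ℕ) (w : Fin n → ℕ) :
    Submodule ℂ (MvPolynomial (Fin 3) ℂ) :=
  homogeneousSubmodule (Fin 3) ℂ d ⊓
    Submodule.restrictScalars ℂ
      (⨅ i : Fin n, (Ideal.span {X 0 - C (P i 0) * X 2, X 1 - C (P i 1) * X 2} :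
        Ideal (MvPolynomial (Fin 3) ℂ)) ^ (w i))

/-- The term of degree `k` of the local equation `G (u + p 0, v + p 1, 1)` of `G` at the point
`(p 0 : p 1 : 1)`. For `G` in `forms P d w`, `p = P i` and `k = w i` this binary form is the
restriction of the section `G` of `O_X (d H - ∑ w i E i)` to the exceptional curve `E i`. -/
noncomputable def restrict (p : Fin 2 → ℂ) (k : ℕ) (G : MvPolynomial (Fin 3) ℂ) :
    MvPolynomial (Fin 2) ℂ :=
  homogeneousComponent k (aeval ![X 0 + C (p 0), X 1 + C (p 1), 1] G)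

/-- `|d H - ∑ w i E i|` has no base point on `X`: some member does not pass through `Q`, for every
point `Q` of the plane that is not one of the points `P i`, and for every point of the exceptional
curve `E i` (given by the direction `v`). -/
def NoBasePoint {n : ℕ} (P : Fin n → Fin 2 → ℂ) (d : ℕ) (w : Fin n → ℕ) : Prop :=
  (∀ Q : Fin 3 → ℂ, Q ≠ 0 → (∀ i, ¬ ∃ c : ℂ, Q = c • (![P i 0, P i 1, 1] : Fin 3 → ℂ)) →
      ∃ G ∈ forms P d w, eval Q G ≠ 0) ∧
    ∀ i, ∀ v : Fin 2 → ℂ, v ≠ 0 → ∃ G ∈ forms P d w, eval v (restrict (P i) (w i) G) ≠ 0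

/-- The number `∑ w i (w i + 1) / 2` of conditions. -/
def conds {n : ℕ} (w : Fin n → ℕ) : ℕ := ∑ i, (w i + 1).choose 2

/-- The ranges of degrees for `n ≥ 10` points. -/
def RangeA (n : ℕ) (w : Fin n → ℕ) (d : ℕ) : Prop :=
  Real.sqrt n * d < ∑ i, (w i : ℝ) ∨
  ((n : ℝ) * (n / 2 - 11 / 6 * Real.sqrt n + 2) ≤ ∑ i, (w i : ℝ) ∧
    Real.sqrt n * (d + 11 / 6) + 9 / 8 < (∑ i, (w i : ℝ)) + n / 2) ∨
  ∃ b : ℕ, (∀ i, w i ≤ b + 1) ∧
    ((n : ℝ) + ∑ i, ((max (w i) b : ℕ) : ℝ) < Real.sqrt n * (d + 3) ∨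
      (∑ i, ((max (w i) b : ℕ) : ℝ)) + n / 2 + Real.sqrt n / 3 + 1 / 8 <
        Real.sqrt n * (d + 3 / 2))

/-- The range of degrees for every number of points. -/
def RangeB (n : ℕ) (w : Fin n → ℕ) (d : ℕ) : Prop :=
  ∃ (r : ℝ) (M : ℕ), 3 ≤ r ∧ (∀ i, w i ≤ M) ∧ ∑ i, (w i : ℝ) + r ^ 2 < r * (d + 3) ∧
    ((Finset.univ.filter fun i => w i = M).card : ℝ) + r ^ 2 * M < r * (d + 3)

/-- The vectors for which all degrees are known: all `w i` equal and `n ≥ 37`, or all `w i` in
`{m, m + 1}` and `n ≥ N0` or `4 ∣ n`, `n ≥ 144`. -/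
def Exact (N0 n : ℕ) (w : Fin n → ℕ) : Prop :=
  (37 ≤ n ∧ ∃ m, 1 ≤ m ∧ ∀ i, w i = m) ∨
    ((N0 ≤ n ∨ (144 ≤ n ∧ 4 ∣ n)) ∧ ∃ m, 1 ≤ m ∧ ∀ i, w i = m ∨ w i = m + 1)

/-- The degrees in which the statements below apply. -/
def Known (N0 n : ℕ) (w : Fin n → ℕ) (d : ℕ) : Prop :=
  (10 ≤ n ∧ RangeA n w d) ∨ RangeB n w d ∨ Exact N0 n w

theorem exists_deg (N : ℕ) : ∃ d, N ≤ (d + 2).choose 2 := by
  refine ⟨N, ?_⟩
  have h : ∀ k : ℕ, k ≤ (k + 2).choose 2 := by
    intro k
    induction k with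
    | zero => simp
    | succ k ih =>
      have h1 := Nat.choose_succ_succ' (k + 2) 1
      rw [Nat.choose_one_right] at h1
      have h2 : (k + 1 + 2).choose 2 = (k + 2 + 1).choose (1 + 1) := rfl
      omega
  exact h N

theorem rangeB_uniform {n m e : ℕ} {w : Fin n → ℕ} (hw : ∀ i, w i = m) (hn : 10 ≤ n)
    (h : Real.sqrt n * (m + 1) < e + 3) : RangeB n w e := by
  obtain rfl : w = fun _ => m := funext hw
  have hn' : (10 : ℝ) ≤ n := by exact_mod_cast hn
  have hs : 3 ≤ Real.sqrt n := Real.le_sqrt_of_sq_le (by linarith)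
  have hs2 : Real.sqrt n ^ 2 = n := Real.sq_sqrt (Nat.cast_nonneg n)
  have h1 : (n : ℝ) * m + n < Real.sqrt n * (e + 3) := by
    have h2 : Real.sqrt n * (Real.sqrt n * (m + 1)) < Real.sqrt n * (e + 3) :=
      mul_lt_mul_of_pos_left h (by linarith)
    have h3 : Real.sqrt n * (Real.sqrt n * (m + 1)) = (n : ℝ) * m + n := by
      have h4 : Real.sqrt n * (Real.sqrt n * (m + 1)) = Real.sqrt n ^ 2 * (m + 1) := by ring
      rw [h4, hs2]
      ring
    linarith
  refine ⟨Real.sqrt n, m, hs, fun _ => le_rfl, ?_, ?_⟩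
  · rw [hs2, Finset.sum_const, Finset.card_univ, Fintype.card_fin, nsmul_eq_mul]
    exact h1
  · rw [hs2, Finset.filter_true_of_mem (fun _ _ => rfl), Finset.card_univ, Fintype.card_fin]
    linarith

theorem conds_uniform {n m : ℕ} {w : Fin n → ℕ} (hw : ∀ i, w i = m) :
    conds w = n * (m + 1).choose 2 := by
  unfold conds
  rw [Finset.sum_congr rfl fun i _ => by rw [hw i], Finset.sum_const, Finset.card_univ,
    Fintype.card_fin, smul_eq_mul]

theorem result : ∃ N0 : ℕ, ∀ (n : ℕ) (w : Fin n → ℕ),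
    ∃ F : MvPolynomial (Fin n × Fin 2) ℂ, F ≠ 0 ∧ ∀ P : Fin n → Fin 2 → ℂ,
      eval (fun ij : Fin n × Fin 2 => P ij.1 ij.2) F ≠ 0 →
      (∀ d, Known N0 n w d → (d + 2).choose 2 ≤ conds w + 1 →
        Module.finrank ℂ ↥(forms P d w) ≤ 1) ∧
      (∀ d, Known N0 n w d → conds w ≤ (d + 2).choose 2 → NoBasePoint P (d + 1) w) ∧
      (Exact N0 n w → ∃ d0, ∀ d, (d = d0 ∧ conds w + 2 ≤ (d + 2).choose 2) ∨
        Module.finrank ℂ ↥(forms P d w) ≤ 1 ∨ NoBasePoint P d w) ∧
      (10 ≤ n → ∀ m : ℕ, (∀ i, w i = m) → ∀ d : ℕ,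
        (Real.sqrt n * m ≤ d ∧ (d : ℝ) + 2 ≤ Real.sqrt n * (m + 1)) ∨
          Module.finrank ℂ ↥(forms P d w) ≤ 1 ∨ NoBasePoint P d w) := by
  obtain ⟨N0, h⟩ := Pool.Agent.TH550.BP.main
  have hK : ∀ (n : ℕ) (w : Fin n → ℕ) (d : ℕ), Known N0 n w d →
      Pool.Agent.TH550.BP.Known N0 n w d := by
    intro n w d hd
    rcases hd with hd | hd | hd | hd
    · exact Or.inl hd
    · exact Or.inr (Or.inl hd)
    · exact Or.inr (Or.inr (Or.inl hd))
    · exact Or.inr (Or.inr (Or.inr hd))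
  refine ⟨N0, fun n w => ?_⟩
  obtain ⟨F, hF, hF'⟩ := h n w
  refine ⟨F, hF, fun P hP => ?_⟩
  obtain ⟨h1, h2, -⟩ := hF' P hP
  have g1 : ∀ d, Known N0 n w d → (d + 2).choose 2 ≤ conds w + 1 →
      Module.finrank ℂ ↥(forms P d w) ≤ 1 := fun d hd hN => h1 d (hK n w d hd) hN
  have g2 : ∀ d, Known N0 n w d → conds w ≤ (d + 2).choose 2 → NoBasePoint P (d + 1) w :=
    fun d hd hN => h2 d (hK n w d hd) hN
  refine ⟨g1, g2, fun hE => ?_, fun hn m hw d => ?_⟩
  swap
  · rcases lt_or_ge (d : ℝ) (Real.sqrt n * m) with h4 | h4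
    · refine Or.inr (Or.inl (g1 d (Or.inl ⟨hn, Or.inl ?_⟩) ?_))
      · have hs0 : 0 < Real.sqrt n := Real.sqrt_pos.2 (by
          have : (10 : ℝ) ≤ n := by exact_mod_cast hn
          linarith)
        have hs2 : Real.sqrt n ^ 2 = n := Real.sq_sqrt (Nat.cast_nonneg n)
        have h5 : ∑ i, (w i : ℝ) = n * m := by
          rw [Finset.sum_congr rfl fun i _ => by rw [hw i], Finset.sum_const, Finset.card_univ,
            Fintype.card_fin, nsmul_eq_mul]
        have h6 : Real.sqrt n * (Real.sqrt n * m) = n * m := by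
          rw [← mul_assoc, ← sq, hs2]
        rw [h5, ← h6]
        exact mul_lt_mul_of_pos_left h4 hs0
      · rw [conds_uniform hw]
        exact Pool.Agent.TH550.BP.num_low hn h4
    · rcases le_or_gt ((d : ℝ) + 2) (Real.sqrt n * (m + 1)) with h5 | h5
      · exact Or.inl ⟨h4, h5⟩
      · have hd : 1 ≤ d := by
          by_contra h0
          have h0' : d = 0 := by omega
          subst h0'
          have hs : 3 ≤ Real.sqrt n := Real.le_sqrt_of_sq_le (by
            have : (10 : ℝ) ≤ n := by exact_mod_cast hn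
            linarith)
          have hm : (0 : ℝ) ≤ m := Nat.cast_nonneg m
          push_cast at h5
          nlinarith
        obtain ⟨e, rfl⟩ : ∃ e, d = e + 1 := ⟨d - 1, by omega⟩
        have h6 : Real.sqrt n * (m + 1) < e + 3 := by push_cast at h5; linarith
        refine Or.inr (Or.inr (g2 e (Or.inr (Or.inl (rangeB_uniform hw hn h6))) ?_))
        rw [conds_uniform hw]
        exact Pool.Agent.TH550.BP.num_high hn h6
  have hE' : ∀ d, Known N0 n w d := fun d => Or.inr (Or.inr hE)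
  classical
  refine ⟨Nat.find (exists_deg (conds w)), fun d => ?_⟩
  have hs := Nat.find_spec (exists_deg (conds w))
  rcases lt_trichotomy d (Nat.find (exists_deg (conds w))) with hd | hd | hd
  · have := Nat.find_min (exists_deg (conds w)) hd
    exact Or.inr (Or.inl (g1 d (hE' d) (by omega)))
  · by_cases h4 : conds w + 2 ≤ (d + 2).choose 2
    · exact Or.inl ⟨hd, h4⟩
    · exact Or.inr (Or.inl (g1 d (hE' d) (by omega)))
  · obtain ⟨e, rfl⟩ : ∃ e, d = e + 1 := ⟨d - 1, by omega⟩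
    have h5 : (Nat.find (exists_deg (conds w)) + 2).choose 2 ≤ (e + 2).choose 2 :=
      Nat.choose_le_choose 2 (by omega)
    exact Or.inr (Or.inr (g2 e (hE' e) (by omega)))

end Pool.Agent.Results.MP_5bb273_ag.BasePointFree
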