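import Mathlib
import Pool.Agent.TH941.MR.Gen
import Pool.Agent.TH434.NW.Near

set_option autoImplicit false

/-!
# Restriction of near-uniform linear systems to exceptional curves has maximal rank

`X` is the blow-up of the plane at `n` general points `P i`, `D = d H - ∑ w i E i` with all
multiplicities `w i ∈ {m, m + 1}`, `m ≥ 1` arbitrary, and `ρ : H⁰(D) → H⁰(O_E(D · E))`.

* For all large `n`, and for all `n ≥ 144` divisible by `4`: for `E = E j` with `w j = m` the map `ρ`
  is injective or surjective in EVERY degree `d`; for all `d` but one, `|D|` is empty or `ρ` is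
  surjective for ALL exceptional curves `E = E j`.
  For `E` the line through two or the conic through five of the points of multiplicity `m + 1`,
  `h⁰(D - E) = 0` or `h⁰(D) = h⁰(D - E) + D · E + 1` in every degree.
* For every `n ≥ 10`: for `E = E j` with `w j = m` the map `ρ` is injective or surjective in all
  degrees but at most two.

The points are those of one nonempty open set, the same for all `w`, `d` and `E`.
-/

namespace Pool.Agent.Results.MP_5bb273_ag.NearUniformMaximalRank

open MvPolynomial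

/-- `H⁰(d H - ∑ w i E i)`: the forms of degree `d` vanishing to order at least `w i` at the points
`(P i 0 : P i 1 : 1)`. -/
noncomputable def sections {k : Type} [Field k] {n : ℕ} (P : Fin n → Fin 2 → k) (d : ℕ)
    (w : Fin n → ℕ) : Submodule k (MvPolynomial (Fin 3) k) :=
  homogeneousSubmodule (Fin 3) k d ⊓
    Submodule.restrictScalars k
      (⨅ i : Fin n, (Ideal.span {X 0 - C (P i 0) * X 2, X 1 - C (P i 1) * X 2} :
        Ideal (MvPolynomial (Fin 3) k)) ^ (w i))

/-- The local equation `F (a + x, b + y, 1)` of `F` at the point `p = (a : b : 1)`. -/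
noncomputable def localEquation {k : Type} [Field k] (p : Fin 2 → k) :
    MvPolynomial (Fin 3) k →ₐ[k] MvPolynomial (Fin 2) k :=
  aeval ![X 0 + C (p 0), X 1 + C (p 1), 1]

/-- The restriction map `ρ` from `H⁰(D)`, `D = d H - ∑ w i E i`, to the exceptional curve `E j`:
`D · E j = w j`, the sections of `O_E(D · E j)` are the binary forms of degree `w j`, and `ρ` sends
`F` to the term of degree `w j` of its local equation at `P j`. -/
noncomputable def rho {k : Type} [Field k] {n : ℕ} (P : Fin n → Fin 2 → k) (d : ℕ) (w : Fin n → ℕ)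
    (j : Fin n) : sections P d w →ₗ[k] homogeneousSubmodule (Fin 2) k (w j) :=
  LinearMap.codRestrict _
    ((homogeneousComponent (w j)) ∘ₗ (localEquation (P j)).toLinearMap ∘ₗ (sections P d w).subtype)
    fun _ => homogeneousComponent_mem _ _

/-- The multiplicities of `D - E`, `E` a curve with simple points at the points with index in `S`. -/
def minus {n : ℕ} (w : Fin n → ℕ) (S : Finset (Fin n)) : Fin n → ℕ :=
  fun i => if i ∈ S then w i - 1 else w i

/-- Maximal rank for near-uniform linear systems. -/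
theorem result (k : Type) [Field k] [IsAlgClosed k] [CharZero k] :
    (∃ N : ℕ, ∀ n : ℕ, (N ≤ n ∨ (144 ≤ n ∧ 4 ∣ n)) → ∀ m : ℕ, 1 ≤ m →
      ∃ G : MvPolynomial (Fin n × Fin 2) k, G ≠ 0 ∧
        ∀ P : Fin n → Fin 2 → k, eval (fun ij : Fin n × Fin 2 => P ij.1 ij.2) G ≠ 0 →
          ∀ w : Fin n → ℕ, (∀ i, w i = m ∨ w i = m + 1) →
            (∀ j, w j = m → ∀ d : ℕ,
              Function.Injective (rho P d w j) ∨ Function.Surjective (rho P d w j)) ∧
            (∃ d0 : ℕ, (∀ d < d0, sections P d w = ⊥) ∧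
              ∀ d, d0 < d → ∀ j, Function.Surjective (rho P d w j)) ∧
            (∀ e : ℕ, e = 1 ∨ e = 2 → ∀ S : Finset (Fin n), S.card = 3 * e - 1 →
              (∀ i ∈ S, w i = m + 1) → ∀ d : ℕ, e ≤ d →
                Module.finrank k ↥(sections P (d - e) (minus w S)) = 0 ∨
                  (Module.finrank k ↥(sections P d w) : ℤ) =
                    Module.finrank k ↥(sections P (d - e) (minus w S)) +
                      (((e : ℤ) * d - ∑ i ∈ S, (w i : ℤ)) + 1))) ∧
    (∀ n : ℕ, 10 ≤ n → ∀ m : ℕ, 1 ≤ m →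
      ∃ G : MvPolynomial (Fin n × Fin 2) k, G ≠ 0 ∧
        ∀ P : Fin n → Fin 2 → k, eval (fun ij : Fin n × Fin 2 => P ij.1 ij.2) G ≠ 0 →
          ∀ w : Fin n → ℕ, (∀ i, w i = m ∨ w i = m + 1) →
            ∃ d1 d2 : ℕ, ∀ d : ℕ, d ≠ d1 → d ≠ d2 → ∀ j, w j = m →
              Function.Injective (rho P d w j) ∨ Function.Surjective (rho P d w j)) := by
  have hupd : ∀ {n m : ℕ} {w : Fin n → ℕ}, (∀ i, w i = m ∨ w i = m + 1) → ∀ j, w j = m →
      ∀ i, Function.update w j (w j + 1) i = m ∨ Function.update w j (w j + 1) i = m + 1 := by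
    intro n m w hw j hj i
    by_cases hi : i = j
    · subst hi
      rw [Function.update_self, hj]
      exact Or.inr rfl
    · rw [Function.update_of_ne hi]
      exact hw i
  constructor
  · obtain ⟨N, hN⟩ := Pool.Agent.TH941.MR.near_all
    refine ⟨N, fun n hn m hm => ?_⟩
    obtain ⟨hn2, hall⟩ := hN n hn
    obtain ⟨G, hG, h⟩ := Pool.Agent.TH941.MR.common (k := k) (n := n) (m := m)
      (Q := fun _ _ => True) (fun w hw => by
        obtain ⟨F, hF, h⟩ := hall m hm w hw (L := k)
        exact ⟨F, hF, fun P hP d _ => h P hP d⟩)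
    refine ⟨G, hG, fun P hP w hw => ?_⟩
    have hmax : ∀ j, w j = m → ∀ d : ℕ,
        Function.Injective (Pool.Agent.TH941.MR.rho P d w j) ∨
          Function.Surjective (Pool.Agent.TH941.MR.rho P d w j) := fun j hj d =>
      Pool.Agent.TH941.MR.maxRank_of (h P hP w hw d trivial) (h P hP _ (hupd hw j hj) d trivial)
    refine ⟨fun j hj d => hmax j hj d, ?_, ?_⟩
    · obtain ⟨d0, h1, h2, h3⟩ := Pool.Agent.TH941.MR.critical (by omega) hw
      refine ⟨d0, fun d hd => Pool.Agent.TH941.MR.bot_of (h P hP w hw d trivial) (h1 d hd),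
        fun d hd j => ?_⟩
      obtain ⟨d, rfl⟩ : ∃ d', d = d' + 1 := ⟨d - 1, by omega⟩
      exact Pool.Agent.TH941.MR.surj_all (fun v hv d => h P hP v hv d trivial) hw
        (h2 d (by omega)) (h3 _ hd) j
    · intro e he S hc hS d hed
      refine Pool.Agent.TH941.MR.dims_of he hm hn2 hw S hS hc hed (h P hP w hw d trivial) ?_
      refine h P hP (fun i => if i ∈ S then w i - 1 else w i) (fun i => ?_) (d - e) trivial
      by_cases hi : i ∈ S
      · left
        simp only [if_pos hi, hS i hi, Nat.add_sub_cancel]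
      · simp only [if_neg hi]
        exact hw i
  · intro n hn m hm
    obtain ⟨G, hG, h⟩ := Pool.Agent.TH941.MR.common (k := k) (n := n) (m := m)
      (Q := fun w d => d ≠ Pool.Agent.TH434.NW.ncrit n (∑ i, (w i : ℝ)))
      (fun w hw => Pool.Agent.TH434.NW.near_all_but_one hn hm hw)
    refine ⟨G, hG, fun P hP w hw => ?_⟩
    refine ⟨Pool.Agent.TH434.NW.ncrit n (∑ i, (w i : ℝ)),
      Pool.Agent.TH434.NW.ncrit n ((∑ i, (w i : ℝ)) + 1), fun d hd1 hd2 j hj => ?_⟩
    refine Pool.Agent.TH941.MR.maxRank_of (h P hP w hw d hd1) (h P hP _ (hupd hw j hj) d ?_)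
    have e : ∑ i, ((Function.update w j (w j + 1) i : ℕ) : ℝ) = (∑ i, (w i : ℝ)) + 1 := by
      rw [← Finset.add_sum_erase _ _ (Finset.mem_univ j),
        ← Finset.add_sum_erase Finset.univ (fun i => (w i : ℝ)) (Finset.mem_univ j)]
      rw [Function.update_self]
      have : ∑ x ∈ Finset.univ.erase j, ((Function.update w j (w j + 1) x : ℕ) : ℝ) =
          ∑ x ∈ Finset.univ.erase j, (w x : ℝ) :=
        Finset.sum_congr rfl fun x hx => by rw [Function.update_of_ne (Finset.ne_of_mem_erase hx)]
      rw [this]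
      push_cast
      ring
    rw [e]
    exact hd2

end Pool.Agent.Results.MP_5bb273_ag.NearUniformMaximalRank
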